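import Mathlib
import Pool.Agent.H34.L.TH161.LW.Count
import Pool.Agent.H34.L.TH161.LW.Info3

/-!
# Project KS: the Kahn–Saks conjecture.  Definitions and statements of the steps.

`Om α M` is the set of order preserving maps `α → {0, …, M - 1}`; a step is a proposition `P_…`.
-/

set_option autoImplicit false

open Finset Filter Topology
open scoped Classical

namespace Pool.Agent.TH161.KS

open Pool.Agent.TH161.LW

section defs

variable (α : Type) [Fintype α]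

/-- mean distance of consecutive values -/
noncomputable def unit (M : ℕ) : ℝ := ((M : ℝ) + 1) / ((Fintype.card α : ℝ) + 1)

variable [PartialOrder α]

/-- probability for a uniformly random order preserving map -/
noncomputable def pr (M : ℕ) (p : (α → ℕ) → Prop) : ℝ :=
  (((Om α M).filter p).card : ℝ) / (Om α M).card

/-- expectation for a uniformly random order preserving map -/
noncomputable def ex (M : ℕ) (X : (α → ℕ) → ℝ) : ℝ := (∑ f ∈ Om α M, X f) / (Om α M).card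

variable {α}

/-- difference in units -/
noncomputable def dd (M : ℕ) (x y : α) (f : α → ℕ) : ℝ := ((f y : ℝ) - f x) / unit α M

/-- height -/
noncomputable def hh (M : ℕ) (x : α) : ℝ := ex α M fun f => (f x : ℝ) / unit α M

/-- mean distance -/
noncomputable def rho (M : ℕ) (x y : α) : ℝ := ex α M fun f => |dd M x y f|

/-- mean deviation of the difference -/
noncomputable def tau (M : ℕ) (x y : α) : ℝ := ex α M fun f => |dd M x y f - (hh M y - hh M x)|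

/-- number of elements before `x` -/
noncomputable def pos (f : α → ℕ) (x : α) : ℕ := (univ.filter fun z => f z < f x).card

/-- (signed) number of elements with values between `f y` and `f y + v` -/
noncomputable def cnt (f : α → ℕ) (y : α) (v : ℤ) : ℤ :=
  ((univ.filter fun z => (f z : ℤ) ≤ f y + v).card : ℤ) - (univ.filter fun z => f z ≤ f y).card

/-- the basic facts valid for all large grids -/
structure Std (α : Type) [Fintype α] [PartialOrder α] (M : ℕ) : Prop where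
  ne : (Om α M).Nonempty
  unit_ge : 1 ≤ unit α M
  tail : ∀ (x y : α) (m S r : ℝ), ex α M (fun f => |dd M x y f - m|) ≤ S →
    pr α M (fun f => r ≤ |dd M x y f - m|) ≤ 17 * Real.exp (-(r / (9 * (S + 1))))
  ball : ∀ (x y : α) (u w : ℝ), 0 ≤ w →
    tau M x y * pr α M (fun f => u ≤ dd M x y f ∧ dd M x y f < u + w) ≤ 38 * (w + 1)
  cpos : ∀ x y : α, ex α M (fun f => |dd M x y f - ((pos f y : ℝ) - pos f x)|) ≤
    √(ex α M (fun f => |(pos f y : ℝ) - pos f x|)) + 1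
  ninj : pr α M (fun f => ¬ Function.Injective f) ≤ 1 / ((Fintype.card α : ℝ) + 1) ^ 4
  lln : ∀ (y : α) (v : ℤ) (e : ℝ), 0 < e →
    pr α M (fun f => 0 ≤ (f y : ℤ) + v ∧ (f y : ℤ) + v < M ∧
      e ≤ |(cnt f y v : ℝ) - v / unit α M|) ≤
      16 * (|(v : ℝ)| / unit α M + e + 1) / e ^ 2 + 1 / ((Fintype.card α : ℝ) + 1) ^ 4

/-- no balanced pair -/
def Unb (α : Type) [Fintype α] [PartialOrder α] (M : ℕ) (ε : ℝ) : Prop :=
  ∀ x y : α, x ≠ y → pr α M (fun f => f x < f y) ≤ 1 / 2 - ε ∨ pr α M (fun f => f y < f x) ≤ 1 / 2 - ε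

/-- relative fluctuations are at most `c` from scale `R` on -/
def H1 (α : Type) [Fintype α] [PartialOrder α] (M : ℕ) (c R : ℝ) : Prop :=
  ∀ (a b : α) (r : ℝ), R ≤ r → |hh M b - hh M a| ≤ r → tau M a b ≤ c * r

end defs

/-- (LC) log-concavity of the law of `f x - f y` -/
def P_LC : Prop := ∀ (α : Type) [Fintype α] [PartialOrder α] (M : ℕ) (x y : α) (k l j : ℤ),
  0 ≤ j → j ≤ l - k →
  ((Om α M).filter fun f => (f x : ℤ) - f y = k).card *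
    ((Om α M).filter fun f => (f x : ℤ) - f y = l).card ≤
  ((Om α M).filter fun f => (f x : ℤ) - f y = k + j).card *
    ((Om α M).filter fun f => (f x : ℤ) - f y = l - j).card

/-- (RAIL) lattice operations relative to `y` -/
def P_RAIL : Prop := ∀ (α : Type) [Fintype α] [PartialOrder α] (M : ℕ) (y : α) (Z : Finset α)
  (hZ : Z.Nonempty) (V U : α → Finset (α → ℕ)) (B₁ B₂ : Finset (α → ℕ)) (c : ℕ),
  (Om α M).Nonempty →
  (∀ j ∈ Z, V j ⊆ Om α M ∧ (Om α M).card ≤ 16 * (V j).card) →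
  (∀ j ∈ Z, U j ⊆ Om α M ∧ (Om α M).card ≤ 16 * (U j).card) →
  B₁.card * (2 * 16 ^ Z.card) ≤ (Om α M).card →
  B₂.card * (2 * 16 ^ (2 * Z.card)) < (Om α M).card →
  ∃ g f : α → (α → ℕ), (∀ j ∈ Z, g j ∈ V j ∧ f j ∈ U j) ∧
    ∃ f₀ ∈ Om α M, ∃ w ∈ Om α M, f₀ ∉ B₁ ∧ w ∉ B₂ ∧
      (∀ z, (f₀ z : ℤ) - f₀ y = Z.inf' hZ fun j => (g j z : ℤ) - g j y) ∧
      (∀ z, (w z : ℤ) - w y =
        min (Z.sup' hZ fun j => (f j z : ℤ) - f j y) ((f₀ z : ℤ) - f₀ y + c))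

/-- log-concavity of the law of an integer valued function on a finite set -/
def LogConc {Ω : Type*} (s : Finset Ω) (D : Ω → ℤ) : Prop := ∀ k l j : ℤ, 0 ≤ j → j ≤ l - k →
  (s.filter fun ω => D ω = k).card * (s.filter fun ω => D ω = l).card ≤
  (s.filter fun ω => D ω = k + j).card * (s.filter fun ω => D ω = l - j).card

/-- (TAIL) exponential tails around an arbitrary centre -/
def P_TAIL : Prop := ∀ (Ω : Type) (s : Finset Ω) (D : Ω → ℤ), LogConc s D →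
  ∀ m S r : ℝ, 0 ≤ S → ∑ ω ∈ s, |(D ω : ℝ) - m| ≤ S * s.card →
  ((s.filter fun ω => r ≤ |(D ω : ℝ) - m|).card : ℝ) ≤
    17 * Real.exp (-(r / (9 * (S + 1)))) * s.card

/-- (BALL) small balls -/
def P_BALL : Prop := ∀ (Ω : Type) (s : Finset Ω) (D : Ω → ℤ), LogConc s D →
  ∀ (m : ℝ) (u : ℤ) (w : ℕ), m * s.card = ∑ ω ∈ s, (D ω : ℝ) →
  (∑ ω ∈ s, |(D ω : ℝ) - m|) * ((s.filter fun ω => u ≤ D ω ∧ D ω < u + w).card : ℝ) ≤
    38 * w * (s.card : ℝ) ^ 2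

/-- the `i`-th smallest element of `t` (`i = 1, …, |t|`), `-1` for `i = 0` and `M` for larger `i` -/
noncomputable def ev (t : Finset ℕ) (M : ℕ) (i : ℕ) : ℤ :=
  if i = 0 then -1 else if h : i - 1 < t.card then (t.orderEmbOfFin rfl ⟨i - 1, h⟩ : ℤ) else M

/-- (GAP) variance of the sum of gaps of a random `n`-subset of `{0, …, M - 1}` -/
def P_GAP : Prop := ∀ n M i j : ℕ, n ≤ M → i ≤ j → j ≤ n + 1 →
  ∑ t ∈ powersetCard n (range M), (((ev t M j : ℝ) - ev t M i) -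
    ((j : ℝ) - i) * (((M : ℝ) + 1) / ((n : ℝ) + 1))) ^ 2 ≤
  ((j : ℝ) - i) * (((M : ℝ) + 1) / ((n : ℝ) + 1)) ^ 2 * (M.choose n : ℝ)

/-- (LLN) the law of large numbers for the values -/
def P_LLN : Prop := P_GAP → ∀ (α : Type) [Fintype α] [PartialOrder α], ∀ᶠ M : ℕ in atTop,
  (∀ x y : α, ex α M (fun f => |dd M x y f - ((pos f y : ℝ) - pos f x)|) ≤
    √(ex α M (fun f => |(pos f y : ℝ) - pos f x|)) + 1) ∧
  (∀ (y : α) (v : ℤ) (e : ℝ), 0 < e →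
    pr α M (fun f => 0 ≤ (f y : ℤ) + v ∧ (f y : ℤ) + v < M ∧
      e ≤ |(cnt f y v : ℝ) - v / unit α M|) ≤
      16 * (|(v : ℝ)| / unit α M + e + 1) / e ^ 2 + 1 / ((Fintype.card α : ℝ) + 1) ^ 4)

/-- (FREE) some element of a large antichain is far from all other elements -/
def P_FREE : Prop := ∀ (α : Type) [Fintype α] [PartialOrder α] (A : Finset α),
  IsAntichain (· ≤ ·) (A : Set α) → 64 ≤ A.card → ∀ᶠ M : ℕ in atTop,
  ∃ x ∈ A, ∀ y : α, y ≠ x → (A.card : ℝ) / 2 ^ 15 ≤ rho M x y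

/-- (DBL) doubling -/
def P_DBL : Prop := ∃ C : ℝ, 1 ≤ C ∧ ∀ (α : Type) [Fintype α] [PartialOrder α] (M : ℕ),
  Std α M → ∀ ε : ℝ, 0 < ε → ε ≤ 1 / 2 → Unb α M ε →
  ∀ (Z : Finset α) (y : α) (η B : ℝ), C / ε ^ 2 ≤ η → η ≤ B →
    (∀ z ∈ Z, ∀ z' ∈ Z, z ≠ z' → η ≤ rho M z z') → (∀ z ∈ Z, rho M y z ≤ B) →
    (Z.card : ℝ) ≤ Real.exp (C * Real.log (B / (η * ε)) ^ 3 / ε ^ 4)

/-- control of the fluctuations by the fluctuations at one scale -/
def Fl (c C : ℝ) : Prop := 0 < c ∧ c ≤ 1 / 2 ∧ 1 ≤ C ∧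
  ∀ (α : Type) [Fintype α] [PartialOrder α] (M : ℕ), Std α M → ∀ R : ℝ, 1 / c ≤ R → H1 α M c R →
    (∀ a b : α, tau M a b ≤ C * (R + √|hh M b - hh M a|)) ∧
    (∀ (a : α) (r : ℝ), R ≤ r → ((univ.filter fun y : α => |hh M y - hh M a| ≤ r).card : ℝ) ≤ C * r)

/-- (FLUC) -/
def P_FLUC : Prop := ∃ c C : ℝ, Fl c C

/-- few visitors -/
def Vi (c C' c' : ℝ) : Prop := 1 ≤ C' ∧ 0 < c' ∧
  ∀ (α : Type) [Fintype α] [PartialOrder α] (M : ℕ), Std α M → ∀ R : ℝ, 1 / c ≤ R → H1 α M c R →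
    ∀ L : ℝ, 1 ≤ L → L ≤ R → ∀ a : α,
      ∑ y ∈ univ.filter (fun y : α => L * R < |hh M y - hh M a|),
        pr α M (fun f => |hh M y - hh M a| / 2 ≤ |dd M a y f - (hh M y - hh M a)|) ≤
      C' * L * R * Real.exp (-(c' * L))

/-- (VIS) -/
def P_VIS : Prop := ∀ c C : ℝ, Fl c C → ∃ C' c' : ℝ, Vi c C' c'

/-- (LEX) adding long chains below and above -/
def P_LEX : Prop := ∀ (P : Type) [Fintype P] [PartialOrder P] [Nonempty P] (k : ℕ),
  ∃ (Q : Type) (_ : Fintype Q) (_ : PartialOrder Q) (ι : P → Q),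
    Function.Injective ι ∧ (∀ a b, ι a ≤ ι b ↔ a ≤ b) ∧
    Fintype.card Q = Fintype.card P + 2 * k ∧
    (∀ q : Q, q ∉ Set.range ι → ∀ q' : Q, q ≤ q' ∨ q' ≤ q) ∧
    (∀ p : P, k ≤ (univ.filter fun q : Q => q < ι p).card ∧
      k ≤ (univ.filter fun q : Q => ι p < q).card) ∧
    ∀ x y : P, (eP Q (ι x) (ι y) : ℝ) / eN Q = (eP P x y : ℝ) / eN P

/-- (STD) -/
def P_STD : Prop := P_LC → P_TAIL → P_BALL → P_LLN → P_GAP →
  ∀ (α : Type) [Fintype α] [PartialOrder α], ∀ᶠ M : ℕ in atTop, Std α M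

/-- (PAR) choice of the parameters -/
def P_PAR : Prop := ∀ c C C' c' CD ε L₁ : ℝ, 0 < c → 1 ≤ C → 1 ≤ C' → 0 < c' → 1 ≤ CD → 0 < ε →
  ε ≤ 1 / 2 → ∃ η L N K₀ : ℝ, 0 < η ∧ η < 1 ∧ 1 ≤ L ∧ L₁ ≤ L ∧ 1 ≤ N ∧ 1 ≤ K₀ ∧
    Real.exp (CD * Real.log (5 * C * L / (η * ε)) ^ 3 / ε ^ 4) ≤ N ∧
    544 * C * L * Real.exp (-(1 / (23040 * √η))) ≤ 1 / (128 * N ^ 2) ∧
    16 * C' * L * Real.exp (-(c' * L)) ≤ 1 / (64 * N) ∧
    17 * N * Real.exp (-(K₀ / 18)) ≤ 1 / 16 ∧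
    (300 / c + 1) * √(3 * K₀ * √η) < ε

/-- with probability at most `β` the value at `x` is within `B` units of the ends of the grid -/
def Rng (α : Type) [Fintype α] [PartialOrder α] (M : ℕ) (x : α) (B β : ℝ) : Prop :=
  pr α M (fun f => (f x : ℝ) < B * unit α M ∨ (M : ℝ) ≤ f x + B * unit α M) ≤ β

/-- (HEAVY) there are many elements near `x` -/
def P_HEAVY : Prop := ∀ c C C' c' : ℝ, Fl c C → Vi c C' c' → ∃ L₁ : ℝ, 1 ≤ L₁ ∧
  ∀ (α : Type) [Fintype α] [PartialOrder α] (M : ℕ), Std α M → ∀ R : ℝ, 1 / c ≤ R → L₁ ≤ R →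
    H1 α M c R → ∀ x : α, Rng α M x R (1 / 4) →
    R / 8 ≤ ((univ.filter fun z : α => |hh M z - hh M x| ≤ L₁ * R).card : ℝ)

/-- (LARGE) large fluctuations near an element that is far from all others -/
def P_LARGE : Prop := ∀ c C C' c' : ℝ, Fl c C → Vi c C' c' → ∃ κ m₀ : ℝ, 0 < κ ∧
  ∀ (α : Type) [Fintype α] [PartialOrder α] (M : ℕ), Std α M → ∀ m : ℝ, m₀ ≤ m → ∀ x : α,
    (∀ y : α, y ≠ x → m ≤ rho M x y) → Rng α M x m (1 / 4) → ¬ H1 α M c (κ * m)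

/-- (GOOD) the sets of good maps -/
def P_GOOD : Prop := ∀ c C C' c' : ℝ, Fl c C → Vi c C' c' →
  ∀ (α : Type) [Fintype α] [PartialOrder α] (M : ℕ), Std α M → ∀ R : ℝ, 1 / c ≤ R → H1 α M c R →
  ∀ (L η N K₀ s δ : ℝ) (x y : α) (Z : Finset α) (π : α → α) (w : ℕ),
    1 ≤ L → L ≤ R → 0 < η → 1 ≤ s → 0 < δ → |hh M y - hh M x| ≤ L * R →
    (∀ z : α, |hh M z - hh M x| ≤ 2 * L * R → π z ∈ Z ∧ rho M (π z) z ≤ η * R) →
    (Z.card : ℝ) ≤ N → 17 * N * Real.exp (-(K₀ / 18)) ≤ 1 / 16 → 0 ≤ K₀ →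
    76 * ((w : ℝ) / unit α M + 1) ≤ s →
    ∃ V U : α → Finset (α → ℕ), ∀ j ∈ Z,
      (V j ⊆ Om α M ∧ (Om α M).card ≤ 16 * (V j).card) ∧
      (U j ⊆ Om α M ∧ (Om α M).card ≤ 16 * (U j).card) ∧
      (∀ f ∈ V j ∪ U j,
        ((univ.filter fun z : α => |hh M z - hh M x| ≤ 2 * L * R ∧ δ ≤ |dd M (π z) z f|).card : ℝ) ≤
          544 * C * L * R * Real.exp (-(δ / (9 * (η * R + 1)))) ∧
        ((univ.filter fun z : α => 2 * L * R < |hh M z - hh M x| ∧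
          |hh M z - hh M y| / 2 ≤ |dd M y z f - (hh M z - hh M y)|).card : ℝ) ≤
          16 * C' * L * R * Real.exp (-(c' * L)) ∧
        (∀ z ∈ Z, tau M y z < s → |dd M y z f - (hh M z - hh M y)| < K₀ * s)) ∧
      (s ≤ tau M y j → ∃ q : ℤ, (∀ g ∈ V j, (g j : ℤ) - g y ≤ q) ∧
        ∀ f ∈ U j, q + w ≤ (f j : ℤ) - f y)

/-- (END) an element at the right place gives a balanced pair -/
def P_END : Prop := ∀ (α : Type) [Fintype α] [PartialOrder α] (M : ℕ), Std α M →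
  ∀ (ε b ς R : ℝ) (x y : α) (q : ℤ), 0 < ε → ε ≤ 1 / 2 → 0 < b → 0 < ς → 1 ≤ √ς * R → 0 < R →
    b * R / 2 ≤ tau M y x → (300 / b + 1) * √ς < ε →
    1 / 2 ≤ pr α M (fun f => (f x : ℤ) - f y ≤ q) → 1 / 2 ≤ pr α M (fun f => q ≤ (f x : ℤ) - f y) →
    ∀ z : α, ex α M (fun f => |dd M y z f - q / unit α M|) ≤ ς * R → ¬ Unb α M ε

end Pool.Agent.TH161.KS
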