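import Mathlib
import Pool.Agent.H34.L.TH161.KS.Fin0

/-!
# Project KS: pieces of the final contradiction at one scale
-/

set_option autoImplicit false
set_option linter.unusedSectionVars false

open Finset Filter Topology
open scoped Classical

namespace Pool.Agent.TH161.KS

open Pool.Agent.TH161.LW

variable {α : Type} [Fintype α] [PartialOrder α] {M : ℕ}

/-- a bound for distances -/
lemma rho_le_of_hh {C R B : ℝ} (hne : (Om α M).Nonempty) (hC : 1 ≤ C)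
    (hF : ∀ a b : α, tau M a b ≤ C * (R + √|hh M b - hh M a|)) {a b : α} (hB : 1 ≤ B)
    (h : |hh M b - hh M a| ≤ B) (hRB : R ≤ B) : rho M a b ≤ 3 * C * B := by
  have h1 := rho_le hne a b
  have h2 := hF a b
  have h3 : √|hh M b - hh M a| ≤ B := by
    rw [Real.sqrt_le_left (by linarith)]
    nlinarith
  have h4 : C * (R + √|hh M b - hh M a|) ≤ C * (B + B) :=
    mul_le_mul_of_nonneg_left (by linarith) (by linarith)
  have h5 : B ≤ C * B := le_mul_of_one_le_left (by linarith) hC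
  linarith

/-- distances in the window -/
lemma rho_window {C R L : ℝ} (hne : (Om α M).Nonempty) (hC : 1 ≤ C) (hR : 1 ≤ R) (hL : 1 ≤ L)
    (hF : ∀ a b : α, tau M a b ≤ C * (R + √|hh M b - hh M a|)) {a b : α}
    (h : |hh M b - hh M a| ≤ 2 * L * R) : rho M a b ≤ 5 * C * L * R := by
  have h1 := rho_le hne a b
  have h2 := hF a b
  have hLR : R ≤ L * R := le_mul_of_one_le_left (by linarith) hL
  have h4 : √|hh M b - hh M a| ≤ 2 * L * R := by
    rw [Real.sqrt_le_left (by positivity)]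
    have h5 : 1 ≤ 2 * L * R := by linarith
    have h6 : 2 * L * R * 1 ≤ 2 * L * R * (2 * L * R) :=
      mul_le_mul_of_nonneg_left h5 (by positivity)
    rw [sq]
    linarith
  have h5 : C * (R + √|hh M b - hh M a|) ≤ C * (R + 2 * L * R) :=
    mul_le_mul_of_nonneg_left (by linarith) (by linarith)
  have h6 : R * C ≤ L * R * C := mul_le_mul_of_nonneg_right hLR (by linarith)
  have h7 : L * R ≤ L * R * C := le_mul_of_one_le_right (by positivity) hC
  have h8 : C * (R + 2 * L * R) = R * C + 2 * (L * R * C) := by ring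
  have h9 : 5 * C * L * R = 5 * (L * R * C) := by ring
  have h10 : 2 * L * R = 2 * (L * R) := by ring
  linarith

/-- the step width -/
lemma exists_step {K s : ℝ} (hK : 1 ≤ K) (hs : 3000 ≤ s) : ∃ d : ℕ, 0 < d ∧
    (d : ℝ) / K ≤ (s / 76 - 1) / 10 ∧ s / 1280 ≤ (d : ℝ) / K := by
  have hK0 : 0 < K := by linarith
  have hs76 : 0 ≤ (s / 76 - 1) * K / 10 := by
    have : 0 ≤ s / 76 - 1 := by linarith
    positivity
  have hd1 : ((⌊(s / 76 - 1) * K / 10⌋₊ : ℕ) : ℝ) ≤ (s / 76 - 1) * K / 10 := Nat.floor_le hs76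
  have hd2 : (s / 76 - 1) * K / 10 < (⌊(s / 76 - 1) * K / 10⌋₊ : ℕ) + 1 := Nat.lt_floor_add_one _
  have h1 : s / 1280 * K ≤ (⌊(s / 76 - 1) * K / 10⌋₊ : ℕ) := by
    have h2 : s / 1280 * K + 1 ≤ (s / 76 - 1) * K / 10 := by nlinarith
    linarith
  refine ⟨⌊(s / 76 - 1) * K / 10⌋₊, ?_, ?_, ?_⟩
  · have h2 : (0 : ℝ) < (⌊(s / 76 - 1) * K / 10⌋₊ : ℕ) := lt_of_lt_of_le (by positivity) h1
    exact_mod_cast h2
  · rw [div_le_iff₀ hK0]
    linarith
  · rw [le_div_iff₀ hK0]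
    exact h1

/-- the law of large numbers used for rails -/
lemma lln_rail {c L N R T : ℝ} {x y y₀ : α} (hStd : Std α M) (hc : 0 < c) (hL : 1 ≤ L) (hN : 1 ≤ N)
    (hR : 1 ≤ R) (hT : 0 < T) (hcR : c * R ≤ tau M x y₀) (hcR2 : 1 ≤ c * R / 2)
    (hRng : Rng α M y (2 * L * R) (1 / (8 * T)))
    (r8 : 4 * T * (16 * (L + 2) * (128 * N) ^ 2 + 2 / c) < R) {v : ℤ}
    (hv : |(v : ℝ)| / unit α M ≤ L * R) :
    pr α M (fun f => ¬ (|(cnt f y v : ℝ) - v / unit α M| < R / (128 * N))) ≤ 3 / (8 * T) := by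
  have hK : 0 < unit α M := unit_pos
  have hR0 : 0 < R := by linarith
  have he0 : 0 < R / (128 * N) := by positivity
  have h1 := lln_bad (v := v) hStd he0 hRng (by
    rw [div_le_iff₀ hK] at hv
    refine hv.trans (mul_le_mul_of_nonneg_right ?_ hK.le)
    nlinarith)
  refine h1.trans ?_
  have h2 : 16 * (|(v : ℝ)| / unit α M + R / (128 * N) + 1) / (R / (128 * N)) ^ 2 ≤
      16 * (L + 2) * (128 * N) ^ 2 / R := by
    have h3 : |(v : ℝ)| / unit α M + R / (128 * N) + 1 ≤ (L + 2) * R := by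
      have h4 : R / (128 * N) ≤ R := div_le_self hR0.le (by linarith)
      nlinarith
    have h4 : 16 * (L + 2) * (128 * N) ^ 2 / R = 16 * ((L + 2) * R) / (R / (128 * N)) ^ 2 := by
      field_simp
    rw [h4]
    exact div_le_div_of_nonneg_right (by linarith) (by positivity)
  have h3 : 1 / ((Fintype.card α : ℝ) + 1) ^ 4 ≤ (2 / c) / R := by
    have h4 : c * R / 2 ≤ (Fintype.card α : ℝ) + 1 := by
      have h5 := rho_le_card hStd.ne x y₀
      have h6 := tau_le_rho hStd.ne x y₀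
      linarith
    have h5 : c * R / 2 ≤ ((Fintype.card α : ℝ) + 1) ^ 4 := by
      have h6 : (Fintype.card α : ℝ) + 1 ≤ ((Fintype.card α : ℝ) + 1) ^ 4 :=
        le_self_pow₀ (by linarith) (by norm_num)
      linarith
    have h6 : 2 / c / R = 1 / (c * R / 2) := by
      field_simp
    rw [h6]
    exact one_div_le_one_div_of_le (by linarith) h5
  have h4 : (16 * (L + 2) * (128 * N) ^ 2 + 2 / c) / R ≤ 1 / (4 * T) := by
    rw [div_le_div_iff₀ hR0 (by positivity)]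
    linarith
  rw [add_div] at h4
  have h5 : 3 / (8 * T) = 1 / (4 * T) + 1 / (8 * T) := by
    field_simp
    norm_num
  rw [h5]
  linarith

lemma exists_bad {p : (α → ℕ) → Prop} {T : ℝ} (hne : (Om α M).Nonempty) (hT : 0 < T)
    (h : pr α M p < 1 / T) : ∃ B : Finset (α → ℕ), (B.card : ℝ) * T < (Om α M).card ∧
      ∀ f ∈ Om α M, f ∉ B → ¬ p f :=
  ⟨(Om α M).filter p, card_bad hne hT h, fun _ hf hfB h => hfB (Finset.mem_filter.mpr ⟨hf, h⟩)⟩

/-- rails whose counts are typical -/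
lemma rail_lln (hRAIL : P_RAIL) (hne : (Om α M).Nonempty) {Z : Finset α} (hZ : Z.Nonempty)
    {V U : α → Finset (α → ℕ)} {y : α} {c n : ℕ} {u₁ u₂ : ℤ} {e T : ℝ}
    (hV : ∀ j ∈ Z, V j ⊆ Om α M ∧ (Om α M).card ≤ 16 * (V j).card)
    (hU : ∀ j ∈ Z, U j ⊆ Om α M ∧ (Om α M).card ≤ 16 * (U j).card)
    (hn : Z.card ≤ n) (hT : T = ((2 * 16 ^ (2 * n) : ℕ) : ℝ))
    (hB : ∀ v : ℤ, v = u₁ ∨ v = u₂ ∨ v = u₁ + c ∨ v = u₂ + c →
      pr α M (fun f => ¬ (|(cnt f y v : ℝ) - v / unit α M| < e)) ≤ 3 / (8 * T)) :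
    ∃ (g f : α → (α → ℕ)) (f₀ w : α → ℕ), (∀ j ∈ Z, g j ∈ V j ∧ f j ∈ U j) ∧
      (∀ z, (f₀ z : ℤ) - f₀ y = Z.inf' hZ fun j => (g j z : ℤ) - g j y) ∧
      (∀ z, (w z : ℤ) - w y =
        min (Z.sup' hZ fun j => (f j z : ℤ) - f j y) ((f₀ z : ℤ) - f₀ y + c)) ∧
      |(cnt w y (u₂ + c) : ℝ) - ((u₂ + c : ℤ) : ℝ) / unit α M| < e ∧
      |(cnt f₀ y u₂ : ℝ) - (u₂ : ℝ) / unit α M| < e ∧
      |(cnt w y (u₁ + c) : ℝ) - ((u₁ + c : ℤ) : ℝ) / unit α M| < e ∧
      |(cnt f₀ y u₁ : ℝ) - (u₁ : ℝ) / unit α M| < e := by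
  have hT0 : 0 < T := by
    rw [hT]
    have : 0 < 2 * 16 ^ (2 * n) := by positivity
    exact_mod_cast this
  have h34 : 3 / (8 * T) + 3 / (8 * T) < 1 / T := by
    have h1 : 3 / (8 * T) + 3 / (8 * T) = (3 / 4) * (1 / T) := by
      field_simp
      norm_num
    rw [h1]
    have h2 : 0 < 1 / T := by positivity
    linarith
  have key : ∀ v v' : ℤ, (v = u₁ ∨ v = u₂ ∨ v = u₁ + c ∨ v = u₂ + c) →
      (v' = u₁ ∨ v' = u₂ ∨ v' = u₁ + c ∨ v' = u₂ + c) →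
      ∃ B : Finset (α → ℕ), B.card * (2 * 16 ^ (2 * n)) < (Om α M).card ∧
        ∀ f ∈ Om α M, f ∉ B → |(cnt f y v : ℝ) - v / unit α M| < e ∧
          |(cnt f y v' : ℝ) - v' / unit α M| < e := by
    intro v v' hv hv'
    obtain ⟨B, hB1, hB2⟩ := exists_bad (M := M) (p := fun f =>
      ¬ (|(cnt f y v : ℝ) - v / unit α M| < e) ∨
      ¬ (|(cnt f y v' : ℝ) - v' / unit α M| < e)) hne hT0
      ((pr_or _ _).trans_lt ((add_le_add (hB v hv) (hB v' hv')).trans_lt h34))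
    refine ⟨B, ?_, ?_⟩
    · rw [hT] at hB1
      exact_mod_cast hB1
    · intro f hf hfB
      have h2 := hB2 f hf hfB
      rw [not_or, not_not, not_not] at h2
      exact h2
  obtain ⟨B₁, hB₁, hB₁'⟩ := key u₁ u₂ (Or.inl rfl) (Or.inr (Or.inl rfl))
  obtain ⟨B₂, hB₂, hB₂'⟩ := key (u₁ + c) (u₂ + c) (Or.inr (Or.inr (Or.inl rfl)))
    (Or.inr (Or.inr (Or.inr rfl)))
  have p1 : 2 * 16 ^ Z.card ≤ 2 * 16 ^ (2 * n) :=
    Nat.mul_le_mul_left _ (Nat.pow_le_pow_right (by norm_num) (by omega))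
  have p2 : 2 * 16 ^ (2 * Z.card) ≤ 2 * 16 ^ (2 * n) :=
    Nat.mul_le_mul_left _ (Nat.pow_le_pow_right (by norm_num) (by omega))
  obtain ⟨g, f, hgf, f₀, hf₀, w, hw, hf₀B, hwB, h0, hw0⟩ :=
    hRAIL α M y Z hZ V U B₁ B₂ c hne hV hU
      ((Nat.mul_le_mul_left _ p1).trans hB₁.le)
      ((Nat.mul_le_mul_left _ p2).trans_lt hB₂)
  exact ⟨g, f, f₀, w, hgf, h0, hw0, (hB₂' w hw hwB).2, (hB₁' f₀ hf₀ hf₀B).2,
    (hB₂' w hw hwB).1, (hB₁' f₀ hf₀ hf₀B).1⟩

/-- bounds for the exceptional sets -/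
lemma t₁_le {C L N R η δ : ℝ} (hC : 1 ≤ C) (hL : 1 ≤ L) (hη : 0 < η) (hR : 0 < R)
    (r4 : 1 ≤ η * R) (hδ : √η * R / 1280 ≤ δ)
    (p2 : 544 * C * L * Real.exp (-(1 / (23040 * √η))) ≤ 1 / (128 * N ^ 2)) :
    544 * C * L * R * Real.exp (-(δ / (9 * (η * R + 1)))) ≤ R / (128 * N ^ 2) := by
  have hη' : 0 < √η := Real.sqrt_pos.mpr hη
  have h1 : 1 / (23040 * √η) ≤ δ / (9 * (η * R + 1)) := by
    rw [div_le_div_iff₀ (by positivity) (by positivity)]
    have h2 : √η * √η = η := Real.mul_self_sqrt hη.le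
    have h4 : √η * (√η * R / 1280) ≤ √η * δ := mul_le_mul_of_nonneg_left hδ hη'.le
    have h5 : √η * (√η * R / 1280) = η * R / 1280 := by
      rw [← mul_div_assoc, ← mul_assoc, h2]
    rw [h5] at h4
    linarith
  have h2 : Real.exp (-(δ / (9 * (η * R + 1)))) ≤ Real.exp (-(1 / (23040 * √η))) :=
    Real.exp_le_exp.mpr (by linarith)
  calc 544 * C * L * R * Real.exp (-(δ / (9 * (η * R + 1))))
      ≤ 544 * C * L * R * Real.exp (-(1 / (23040 * √η))) :=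
        mul_le_mul_of_nonneg_left h2 (by positivity)
    _ = R * (544 * C * L * Real.exp (-(1 / (23040 * √η)))) := by ring
    _ ≤ R * (1 / (128 * N ^ 2)) := mul_le_mul_of_nonneg_left p2 hR.le
    _ = _ := by ring

lemma t₂_le {C' L N R c' : ℝ} (hR : 0 < R)
    (p3 : 16 * C' * L * Real.exp (-(c' * L)) ≤ 1 / (64 * N)) :
    16 * C' * L * R * Real.exp (-(c' * L)) ≤ R / (64 * N) := by
  calc 16 * C' * L * R * Real.exp (-(c' * L)) = R * (16 * C' * L * Real.exp (-(c' * L))) := by ring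
    _ ≤ R * (1 / (64 * N)) := mul_le_mul_of_nonneg_left p3 hR.le
    _ = _ := by ring

lemma sum_lt {m N R t₁ t₂ : ℝ} (hN : 1 ≤ N) (hR : 0 < R) (hm : m ≤ N)
    (ht₁ : 0 ≤ t₁) (ht₁' : t₁ ≤ R / (128 * N ^ 2)) (ht₂ : t₂ ≤ R / (64 * N)) :
    4 * m * t₁ + 4 * (R / (128 * N)) + 2 * t₂ < R / (8 * N) := by
  have h1 : 4 * m * t₁ ≤ R / (32 * N) := by
    have h2 : 4 * m * t₁ ≤ 4 * N * (R / (128 * N ^ 2)) :=
      mul_le_mul (by linarith) ht₁' ht₁ (by linarith)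
    refine h2.trans (le_of_eq ?_)
    field_simp
    norm_num
  have h2 : 4 * (R / (128 * N)) = R / (32 * N) := by
    field_simp; norm_num
  have h3 : 2 * t₂ ≤ R / (32 * N) := by
    have h4 : R / (32 * N) = 2 * (R / (64 * N)) := by field_simp; norm_num
    rw [h4]; linarith
  have h4 : R / (8 * N) = 4 * (R / (32 * N)) := by field_simp; norm_num
  have h5 : 0 < R / (32 * N) := by positivity
  rw [h4, h2]
  linarith

/-- the last step: the net point `z₀` of the moved element -/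
lemma net_point {c K₀ s η ε R : ℝ} {x' y z z₀ : α} {q : ℤ} {d : ℕ} {f g : α → ℕ}
    (hStd : Std α M) (hEND : P_END) (hU : Unb α M ε) (hε : 0 < ε) (hε2 : ε ≤ 1 / 2)
    (hc0 : 0 < c) (hη : 0 < η) (hR : 0 < R) (hK1 : 1 ≤ K₀)
    (hs : s = √η * R) (hδ : (d : ℝ) / unit α M ≤ (s / 76 - 1) / 10) (hs0 : 0 ≤ s)
    (hx' : c * R / 2 ≤ tau M y x') (p5 : (300 / c + 1) * √(3 * K₀ * √η) < ε)
    (r6 : 1 ≤ √(3 * K₀ * √η) * R)
    (hq1 : 1 / 2 ≤ pr α M (fun f => (f x' : ℤ) - f y ≤ q))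
    (hq2 : 1 / 2 ≤ pr α M (fun f => q ≤ (f x' : ℤ) - f y))
    (a1 : (f z : ℤ) - f y ≤ q + (8 * d : ℕ)) (a2 : q < (g z : ℤ) - g y)
    (a3 : |(f z : ℤ) - f z₀| < d) (a4 : |(g z : ℤ) - g z₀| < d)
    (b : s ≤ tau M y z₀ → ∃ q' : ℤ, ((g z₀ : ℤ) - g y ≤ q') ∧
      q' + (10 * d : ℕ) ≤ (f z₀ : ℤ) - f y)
    (c1 : tau M y z₀ < s → |dd M y z₀ f - (hh M z₀ - hh M y)| < K₀ * s)
    (c2 : tau M y z₀ < s → |dd M y z₀ g - (hh M z₀ - hh M y)| < K₀ * s) : False := by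
  have hK : 0 < unit α M := unit_pos
  rw [abs_lt] at a3 a4
  by_cases hst : s ≤ tau M y z₀
  · obtain ⟨q', b1, b2⟩ := b hst
    push_cast at a1 b2
    omega
  · rw [not_le] at hst
    have c1 := c1 hst
    have c2 := c2 hst
    rw [abs_lt] at c1 c2
    have e1 : dd M y z₀ f ≤ q / unit α M + 9 * ((d : ℝ) / unit α M) := by
      unfold dd
      have h1 : (q : ℝ) / unit α M + 9 * ((d : ℝ) / unit α M) =
          ((q : ℝ) + 9 * d) / unit α M := by ring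
      rw [h1]
      refine div_le_div_of_nonneg_right ?_ hK.le
      have h2 : (f z₀ : ℤ) - f y ≤ q + 9 * d := by push_cast at a1; omega
      exact_mod_cast h2
    have e2 : q / unit α M - 9 * ((d : ℝ) / unit α M) ≤ dd M y z₀ g := by
      unfold dd
      have h1 : (q : ℝ) / unit α M - 9 * ((d : ℝ) / unit α M) =
          ((q : ℝ) - 9 * d) / unit α M := by ring
      rw [h1]
      refine div_le_div_of_nonneg_right ?_ hK.le
      have h2 : q - 9 * d ≤ (g z₀ : ℤ) - g y := by omega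
      exact_mod_cast h2
    have h10 : s ≤ K₀ * s := le_mul_of_one_le_left hs0 hK1
    have h9 : 9 * ((d : ℝ) / unit α M) ≤ s := by linarith
    have e3 : |hh M z₀ - hh M y - q / unit α M| ≤ 2 * (K₀ * s) := by
      rw [abs_le]
      constructor <;> linarith [c1.1, c2.2]
    have e4 : ex α M (fun f => |dd M y z₀ f - q / unit α M|) ≤ 3 * K₀ * √η * R := by
      refine (rho_le_dist hStd.ne y z₀ _).trans ?_
      have h11 : 3 * K₀ * √η * R = 3 * (K₀ * s) := by rw [hs]; ring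
      rw [h11]
      linarith
    exact hEND α M hStd ε c (3 * K₀ * √η) R x' y q hε hε2 hc0
      (by have := Real.sqrt_pos.mpr hη; positivity) r6 hR hx' p5 hq1 hq2 z₀ e4 hU

end Pool.Agent.TH161.KS
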