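import Mathlib
import Pool.Agent.H34.L.TH161.KS.Basic

/-!
# Project KS: positions
-/

set_option autoImplicit false
set_option linter.unusedSectionVars false

open Finset Filter Topology
open scoped Classical

namespace Pool.Agent.TH161.KS

open Pool.Agent.TH161.LW

variable {α : Type} [Fintype α] [PartialOrder α] {M : ℕ}

/-- number of elements below -/
noncomputable def lw (z : α) : ℕ := (univ.filter fun q : α => q < z).card

/-- number of elements incomparable to `z` -/
noncomputable def inc (z : α) : ℕ := (univ.filter fun q : α => ¬ q ≤ z ∧ ¬ z ≤ q).card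

lemma pos_ge {f : α → ℕ} (hf : f ∈ Om α M) (hinj : Function.Injective f) (z : α) :
    lw z ≤ pos f z := by
  unfold lw pos
  refine Finset.card_le_card fun q hq => ?_
  rw [Finset.mem_filter] at hq ⊢
  refine ⟨hq.1, lt_of_le_of_ne ((mem_Om.mp hf).2 hq.2.le) fun h => hq.2.ne (hinj h)⟩

lemma pos_le {f : α → ℕ} (hf : f ∈ Om α M) (z : α) : pos f z ≤ lw z + inc z := by
  unfold lw inc pos
  refine (Finset.card_le_card ?_).trans (Finset.card_union_le _ _)
  intro q hq
  rw [Finset.mem_filter] at hq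
  rw [Finset.mem_union, Finset.mem_filter, Finset.mem_filter]
  have h1 : ¬ z ≤ q := fun h => absurd ((mem_Om.mp hf).2 h) (not_le.mpr hq.2)
  by_cases h2 : q ≤ z
  · exact Or.inl ⟨hq.1, lt_of_le_not_ge h2 h1⟩
  · exact Or.inr ⟨hq.1, h2, h1⟩

lemma pos_le_card (f : α → ℕ) (z : α) : pos f z ≤ Fintype.card α := by
  unfold pos
  exact Finset.card_le_univ _

lemma lw_le_card (z : α) : lw z ≤ Fintype.card α := by
  unfold lw
  exact Finset.card_le_univ _

/-- an expectation is at most the value on injective maps plus a small error -/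
lemma ex_le_inj (hStd : Std α M) {X : (α → ℕ) → ℝ} {A B : ℝ} (hB : 0 ≤ B)
    (h1 : ∀ f ∈ Om α M, Function.Injective f → X f ≤ A) (h2 : ∀ f ∈ Om α M, X f ≤ A + B) :
    ex α M X ≤ A + B * (1 / ((Fintype.card α : ℝ) + 1) ^ 4) := by
  have h3 : ex α M X ≤ ex α M (fun f => A + B * (if ¬ Function.Injective f then 1 else 0)) := by
    refine ex_mono fun f hf => ?_
    by_cases h : Function.Injective f
    · have := h1 f hf h
      simpa [h] using this
    · have := h2 f hf
      simpa [h] using this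
  have h5 : ex α M (fun f => if ¬ Function.Injective f then 1 else 0) =
      pr α M (fun f => ¬ Function.Injective f) := by
    rw [← ex_ind]
    congr 1
    funext f
    by_cases h : Function.Injective f <;> simp [h]
  rw [ex_add, ex_const hStd.ne, ex_mul, h5] at h3
  have h4 := mul_le_mul_of_nonneg_left hStd.ninj hB
  linarith

lemma dist_key (hStd : Std α M) (a b : α) {I : ℝ} (ha : (inc a : ℝ) ≤ I) (hb : (inc b : ℝ) ≤ I) :
    ex α M (fun f => |dd M a b f - ((lw b : ℝ) - lw a)|) ≤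
      √(|(lw b : ℝ) - lw a| + I + 1) + I + 2 := by
  have hn0 : (0 : ℝ) ≤ Fintype.card α := by positivity
  have hI : 0 ≤ I := le_trans (by positivity) ha
  -- positions are close to `lw`
  have hpos : ∀ f ∈ Om α M, Function.Injective f →
      |((pos f b : ℝ) - pos f a) - ((lw b : ℝ) - lw a)| ≤ I := by
    intro f hf hinj
    have h1 : (lw a : ℝ) ≤ pos f a := by exact_mod_cast pos_ge hf hinj a
    have h2 : (lw b : ℝ) ≤ pos f b := by exact_mod_cast pos_ge hf hinj b
    have h3 : (pos f a : ℝ) ≤ lw a + inc a := by exact_mod_cast pos_le hf a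
    have h4 : (pos f b : ℝ) ≤ lw b + inc b := by exact_mod_cast pos_le hf b
    rw [abs_le]
    constructor <;> linarith
  have hall : ∀ f ∈ Om α M,
      |((pos f b : ℝ) - pos f a) - ((lw b : ℝ) - lw a)| ≤ I + 2 * Fintype.card α := by
    intro f _
    have h1 : (pos f a : ℝ) ≤ Fintype.card α := by exact_mod_cast pos_le_card f a
    have h2 : (pos f b : ℝ) ≤ Fintype.card α := by exact_mod_cast pos_le_card f b
    have h3 : (lw a : ℝ) ≤ Fintype.card α := by exact_mod_cast lw_le_card a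
    have h4 : (lw b : ℝ) ≤ Fintype.card α := by exact_mod_cast lw_le_card b
    have h5 : (0 : ℝ) ≤ pos f a := by positivity
    have h6 : (0 : ℝ) ≤ pos f b := by positivity
    have h7 : (0 : ℝ) ≤ lw a := by positivity
    have h8 : (0 : ℝ) ≤ lw b := by positivity
    rw [abs_le]
    constructor <;> linarith
  have hsmall : 2 * (Fintype.card α : ℝ) * (1 / ((Fintype.card α : ℝ) + 1) ^ 4) ≤ 1 := by
    rw [mul_one_div, div_le_one (by positivity)]
    have h1 : ((Fintype.card α : ℝ) + 1) ^ 2 ≤ ((Fintype.card α : ℝ) + 1) ^ 4 :=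
      pow_le_pow_right₀ (by linarith) (by norm_num)
    nlinarith
  have e1 : ex α M (fun f => |((pos f b : ℝ) - pos f a) - ((lw b : ℝ) - lw a)|) ≤ I + 1 := by
    have h := ex_le_inj hStd (X := fun f => |((pos f b : ℝ) - pos f a) - ((lw b : ℝ) - lw a)|)
      (A := I) (B := 2 * (Fintype.card α : ℝ)) (by positivity) hpos hall
    linarith
  have e2 : ex α M (fun f => |(pos f b : ℝ) - pos f a|) ≤ |(lw b : ℝ) - lw a| + I + 1 := by
    have h1 : ex α M (fun f => |(pos f b : ℝ) - pos f a|) ≤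
        ex α M (fun f => |(lw b : ℝ) - lw a| + |((pos f b : ℝ) - pos f a) -
          ((lw b : ℝ) - lw a)|) := by
      refine ex_mono fun f _ => ?_
      have h2 : (pos f b : ℝ) - pos f a = ((lw b : ℝ) - lw a) + (((pos f b : ℝ) - pos f a) -
          ((lw b : ℝ) - lw a)) := by ring
      calc |(pos f b : ℝ) - pos f a| = |((lw b : ℝ) - lw a) + (((pos f b : ℝ) - pos f a) -
          ((lw b : ℝ) - lw a))| := by rw [← h2]
        _ ≤ _ := abs_add_le _ _
    rw [ex_add, ex_const hStd.ne] at h1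
    linarith
  have e3 := hStd.cpos a b
  have e4 : √(ex α M (fun f => |(pos f b : ℝ) - pos f a|)) ≤ √(|(lw b : ℝ) - lw a| + I + 1) :=
    Real.sqrt_le_sqrt e2
  have e5 : ex α M (fun f => |dd M a b f - ((lw b : ℝ) - lw a)|) ≤
      ex α M (fun f => |dd M a b f - ((pos f b : ℝ) - pos f a)| +
        |((pos f b : ℝ) - pos f a) - ((lw b : ℝ) - lw a)|) := by
    refine ex_mono fun f _ => ?_
    have h2 : dd M a b f - ((lw b : ℝ) - lw a) = (dd M a b f - ((pos f b : ℝ) - pos f a)) +
      (((pos f b : ℝ) - pos f a) - ((lw b : ℝ) - lw a)) := by ring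
    rw [h2]
    exact abs_add_le _ _
  rw [ex_add] at e5
  linarith

/-- the distance of the heights -/
lemma hh_key (hStd : Std α M) (a b : α) {I : ℝ} (ha : (inc a : ℝ) ≤ I) (hb : (inc b : ℝ) ≤ I) :
    |(lw b : ℝ) - lw a| ≤ 2 * |hh M b - hh M a| + 3 * I + 6 := by
  have h1 := dist_key hStd a b ha hb
  have hI : 0 ≤ I := le_trans (by positivity) ha
  have h2 : |hh M b - hh M a - ((lw b : ℝ) - lw a)| ≤
      ex α M (fun f => |dd M a b f - ((lw b : ℝ) - lw a)|) := by
    rw [← ex_dd]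
    nth_rewrite 1 [← ex_const (M := M) hStd.ne ((lw b : ℝ) - lw a)]
    rw [← ex_sub]
    exact abs_ex_le _
  have h3 : √(|(lw b : ℝ) - lw a| + I + 1) ≤ (|(lw b : ℝ) - lw a| + I + 1 + 1) / 2 := by
    have h4 : 0 ≤ |(lw b : ℝ) - lw a| + I + 1 := by positivity
    have h5 := Real.sq_sqrt h4
    nlinarith [sq_nonneg (√(|(lw b : ℝ) - lw a| + I + 1) - 1)]
  have h4 : |(lw b : ℝ) - lw a| ≤ |hh M b - hh M a| + |hh M b - hh M a - ((lw b : ℝ) - lw a)| := by
    have h5 : (lw b : ℝ) - lw a = (hh M b - hh M a) - (hh M b - hh M a - ((lw b : ℝ) - lw a)) := by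
      ring
    calc |(lw b : ℝ) - lw a| = |(hh M b - hh M a) - (hh M b - hh M a - ((lw b : ℝ) - lw a))| := by
          rw [← h5]
      _ ≤ _ := abs_sub _ _
  linarith

/-- a critical pair: the fluctuation is large compared with the distance of the heights -/
lemma crit_key (hStd : Std α M) (a b : α) {c I R : ℝ} (hc0 : 0 < c) (hc : c ≤ 1)
    (ha : (inc a : ℝ) ≤ I) (hb : (inc b : ℝ) ≤ I)
    (hR : |hh M b - hh M a| ≤ R) (hcR : c * R ≤ tau M a b) :
    |(lw b : ℝ) - lw a| ≤ 100 * (I + 1) / c ^ 2 ∧ R ≤ 100 * (I + 1) / c ^ 2 := by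
  have hI : 0 ≤ I := le_trans (by positivity) ha
  have h1 := dist_key hStd a b ha hb
  have h2 := tau_le_two hStd.ne a b ((lw b : ℝ) - lw a)
  set E := √(|(lw b : ℝ) - lw a| + I + 1) + I + 2 with hE
  set D := |(lw b : ℝ) - lw a| with hD
  have hD0 : 0 ≤ D := abs_nonneg _
  have h3 : D ≤ |hh M b - hh M a| + E := by
    have h4 : |hh M b - hh M a - ((lw b : ℝ) - lw a)| ≤
        ex α M (fun f => |dd M a b f - ((lw b : ℝ) - lw a)|) := by
      rw [← ex_dd]
      nth_rewrite 1 [← ex_const (M := M) hStd.ne ((lw b : ℝ) - lw a)]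
      rw [← ex_sub]
      exact abs_ex_le _
    have h5 : (lw b : ℝ) - lw a = (hh M b - hh M a) - (hh M b - hh M a - ((lw b : ℝ) - lw a)) := by
      ring
    have h6 : D ≤ |hh M b - hh M a| + |hh M b - hh M a - ((lw b : ℝ) - lw a)| := by
      rw [hD]
      calc |(lw b : ℝ) - lw a| = |(hh M b - hh M a) - (hh M b - hh M a -
          ((lw b : ℝ) - lw a))| := by rw [← h5]
        _ ≤ _ := abs_sub _ _
    linarith
  have hR2 : c * R ≤ 2 * E := by linarith
  -- `c D ≤ 3 E`
  have h4 : c * D ≤ 3 * E := by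
    have h5 : c * D ≤ c * (R + E) := mul_le_mul_of_nonneg_left (by linarith) hc0.le
    have hE0 : 0 ≤ E := by rw [hE]; positivity
    have h6 : c * E ≤ 1 * E := mul_le_mul_of_nonneg_right hc hE0
    linarith
  have hX : 0 ≤ D + I + 1 := by positivity
  set S := √(D + I + 1) with hS
  have hS2 : S ^ 2 = D + I + 1 := Real.sq_sqrt hX
  have hS0 : 0 ≤ S := Real.sqrt_nonneg _
  -- `c S² ≤ 3 S + 5 (I + 1) + …`
  have h5 : c * S ^ 2 ≤ 3 * S + 7 * (I + 1) := by
    rw [hS2]
    have h6 : c * (I + 1) ≤ 1 * (I + 1) := mul_le_mul_of_nonneg_right hc (by linarith)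
    have h7 : c * (D + I + 1) = c * D + c * (I + 1) := by ring
    rw [h7]
    have h8 : E = S + I + 2 := hE
    linarith
  have h6 : c * S ≤ 3 + 3 * √(I + 1) := by
    by_contra hcon
    rw [not_le] at hcon
    have h7 : √(I + 1) ^ 2 = I + 1 := Real.sq_sqrt (by linarith)
    have h8 : 1 ≤ √(I + 1) := by
      rw [Real.one_le_sqrt]
      linarith
    have h9 : c * (c * S ^ 2) ≤ c * (3 * S + 7 * (I + 1)) := mul_le_mul_of_nonneg_left h5 hc0.le
    have h10 : c * (3 * S + 7 * (I + 1)) ≤ 3 * (c * S) + 7 * (I + 1) := by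
      have : c * (7 * (I + 1)) ≤ 1 * (7 * (I + 1)) := mul_le_mul_of_nonneg_right hc (by linarith)
      linarith
    have h11 : (c * S) * (c * S) ≤ 3 * (c * S) + 7 * √(I + 1) ^ 2 := by
      rw [h7]
      calc (c * S) * (c * S) = c * (c * S ^ 2) := by ring
        _ ≤ _ := h9.trans h10
    nlinarith
  have h7 : √(I + 1) ≤ I + 1 := by
    rw [Real.sqrt_le_left (by linarith)]
    nlinarith
  have h8 : (c * S) ^ 2 ≤ 36 * (I + 1) := by
    have h9 : 1 ≤ √(I + 1) := by
      rw [Real.one_le_sqrt]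
      linarith
    have h10 : c * S ≤ 6 * √(I + 1) := by linarith
    have h11 : 0 ≤ c * S := by positivity
    have h12 : (c * S) ^ 2 ≤ (6 * √(I + 1)) ^ 2 := pow_le_pow_left₀ h11 h10 2
    have h13 : (6 * √(I + 1)) ^ 2 = 36 * (I + 1) := by
      rw [mul_pow, Real.sq_sqrt (by linarith)]
      norm_num
    linarith
  have hc2 : 0 < c ^ 2 := by positivity
  have h9 : c ^ 2 * (D + I + 1) ≤ 36 * (I + 1) := by
    rw [← hS2]
    calc c ^ 2 * S ^ 2 = (c * S) ^ 2 := by ring
      _ ≤ _ := h8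
  constructor
  · rw [le_div_iff₀ hc2]
    have h10 : 0 ≤ c ^ 2 * (I + 1) := by positivity
    nlinarith
  · rw [le_div_iff₀ hc2]
    have h10 : R * c ^ 2 = c * (c * R) := by ring
    rw [h10]
    have h11 : c * (c * R) ≤ c * (2 * E) := mul_le_mul_of_nonneg_left hR2 hc0.le
    have h12 : c * (2 * E) = 2 * (c * S) + 2 * c * (I + 2) := by rw [hE]; ring
    have h13 : 2 * c * (I + 2) ≤ 2 * 1 * (I + 2) :=
      mul_le_mul_of_nonneg_right (by linarith) (by linarith)
    linarith

end Pool.Agent.TH161.KS
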