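import Mathlib
import Pool.Agent.H34.L.TH161.KS.Main

/-!
# Project KS: the Kahn–Saks conjecture from the steps
-/

set_option autoImplicit false
set_option linter.unusedSectionVars false

open Finset Filter Topology
open scoped Classical

namespace Pool.Agent.TH161.KS

open Pool.Agent.TH161.LW

lemma pr_zero_of_le {α : Type} [Fintype α] [PartialOrder α] {M : ℕ} {x y : α} (h : x ≤ y) :
    pr α M (fun f => f y < f x) = 0 := by
  refine le_antisymm ((pr_mono (q := fun _ => False) fun f hf h' => ?_).trans_eq ?_) (pr_nonneg _)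
  · exact absurd h' (not_lt.mpr ((mem_Om.mp hf).2 h))
  · unfold pr
    simp

/-- the Kahn–Saks conjecture from the steps -/
theorem kahn_saks_of (hRAIL : P_RAIL) (hLC : P_LC) (hTAIL : P_TAIL) (hBALL : P_BALL)
    (hGAP : P_GAP) (hLLN : P_LLN) (hFREE : P_FREE) (hDBL : P_DBL) (hFLUC : P_FLUC) (hVIS : P_VIS)
    (hLEX : P_LEX) (hSTD : P_STD) (hPAR : P_PAR) (hHEAVY : P_HEAVY) (hLARGE : P_LARGE)
    (hGOOD : P_GOOD) (hEND : P_END) :
    ∀ ε : ℝ, 0 < ε → ε ≤ 1 / 2 → ∃ W : ℕ, ∀ (P : Type) [Fintype P] [PartialOrder P]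
      (A : Finset P), IsAntichain (· ≤ ·) (A : Set P) → W ≤ A.card →
      ∃ x y : P, x ≠ y ∧ (1 / 2 - ε) * (eN P : ℝ) ≤ eP P x y ∧
        (1 / 2 - ε) * (eN P : ℝ) ≤ eP P y x := by
  intro ε hε hε2
  obtain ⟨c, C, hFl⟩ := hFLUC
  obtain ⟨C', c', hVi⟩ := hVIS c C hFl
  obtain ⟨hc0, hc2, hC1, hF⟩ := id hFl
  obtain ⟨R₀, L₀, β, hβ, hL₀, hFIN⟩ := t_FIN c C C' c' hFl hVi hDBL hRAIL hPAR hHEAVY hGOOD hEND
    (ε / 2) (by linarith) (by linarith)
  obtain ⟨κ, m₀, hκ, hLAR⟩ := hLARGE c C C' c' hFl hVi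
  obtain ⟨β', hβ'⟩ : ∃ β' : ℝ, β' = min β (1 / 4) := ⟨_, rfl⟩
  have hβ'0 : 0 < β' := by rw [hβ']; exact lt_min hβ (by norm_num)
  have hβ'1 : β' ≤ β := by rw [hβ']; exact min_le_left _ _
  have hβ'2 : β' ≤ 1 / 4 := by rw [hβ']; exact min_le_right _ _
  obtain ⟨W, hW⟩ := exists_nat_ge (64 + 2 ^ 15 * (|m₀| + (|R₀| + 100 / c ^ 2) / κ))
  refine ⟨W, fun P _ _ A hA hAW => ?_⟩
  by_contra hcon
  push Not at hcon
  have hc20 : 0 ≤ 100 / c ^ 2 := by positivity
  have hq0 : 0 ≤ (|R₀| + 100 / c ^ 2) / κ := by positivity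
  have hAW' : (W : ℝ) ≤ A.card := by exact_mod_cast hAW
  have hm₀ := abs_nonneg m₀
  obtain ⟨m, hm⟩ : ∃ m : ℝ, m = (A.card : ℝ) / 2 ^ 15 := ⟨_, rfl⟩
  have hmm : |m₀| + (|R₀| + 100 / c ^ 2) / κ ≤ m := by
    rw [hm, le_div_iff₀ (by norm_num)]
    linarith
  have hm1 : m₀ ≤ m := by
    have := le_abs_self m₀
    linarith
  have hm2 : |R₀| + 100 / c ^ 2 ≤ κ * m := by
    have h1 : (|R₀| + 100 / c ^ 2) / κ ≤ m := by linarith
    rw [div_le_iff₀ hκ] at h1
    linarith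
  have hm0 : 0 ≤ m := by rw [hm]; positivity
  have hA64 : 64 ≤ A.card := by
    have h1 : (0 : ℝ) ≤ 2 ^ 15 * (|m₀| + (|R₀| + 100 / c ^ 2) / κ) := by positivity
    have h2 : (64 : ℝ) ≤ A.card := by linarith
    exact_mod_cast h2
  have hAne : A.Nonempty := Finset.card_pos.mp (by omega)
  obtain ⟨a₁, ha₁⟩ := hAne
  have _ : Nonempty P := ⟨a₁⟩
  obtain ⟨p, hp⟩ : ∃ p : ℝ, p = Fintype.card P := ⟨_, rfl⟩
  have hp0 : 0 ≤ p := by rw [hp]; positivity
  obtain ⟨Λ, hΛ⟩ : ∃ Λ : ℝ, Λ = 100 * (p + 1) / c ^ 2 := ⟨_, rfl⟩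
  have hΛ0 : 0 ≤ Λ := by rw [hΛ]; positivity
  obtain ⟨B, hB⟩ : ∃ B : ℝ, B = L₀ * Λ + m := ⟨_, rfl⟩
  have hL₀Λ : 0 ≤ L₀ * Λ := by positivity
  obtain ⟨Λ₂, hΛ₂⟩ : ∃ Λ₂ : ℝ, Λ₂ = 2 * (L₀ * Λ) + 3 * p + 6 := ⟨_, rfl⟩
  obtain ⟨δ, hδ⟩ : ∃ δ : ℝ, δ = min (β' / 2) (ε / 2) := ⟨_, rfl⟩
  have hδ0 : 0 < δ := by rw [hδ]; exact lt_min (by linarith) (by linarith)
  have hδ1 : δ ≤ β' / 2 := by rw [hδ]; exact min_le_left _ _
  have hδ2 : δ ≤ ε / 2 := by rw [hδ]; exact min_le_right _ _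
  obtain ⟨k, hk1, hkT, hkδ, hk⟩ := exists_large (2 * p + 2) (B + Λ + Λ₂ + 1) δ (by linarith) hδ0
  obtain ⟨T, hT⟩ : ∃ T : ℝ, T = (k : ℝ) - (B + Λ + Λ₂ + 1) := ⟨_, rfl⟩
  rw [← hT] at hkT hk
  have hT0 : 0 < T := by linarith
  obtain ⟨Q, instF, instP, ι, hinj, hord, hcard, hcomp, hlow, hprob⟩ := hLEX P k
  have hAι : IsAntichain (· ≤ ·) ((A.image ι : Finset Q) : Set Q) := by
    intro u hu v hv huv huv'
    rw [Finset.mem_coe, Finset.mem_image] at hu hv
    obtain ⟨u', hu', rfl⟩ := hu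
    obtain ⟨v', hv', rfl⟩ := hv
    exact hA hu' hv' (fun h => huv (by rw [h])) ((hord _ _).mp huv')
  have hAc : (A.image ι).card = A.card := Finset.card_image_of_injective _ hinj
  obtain ⟨M, hStd, hfree⟩ := ((hSTD hLC hTAIL hBALL hLLN hGAP Q).and
    (hFREE Q (A.image ι) hAι (by rw [hAc]; exact hA64))).exists
  have hne := hStd.ne
  have hn : (Fintype.card Q : ℝ) = p + 2 * k := by
    rw [hcard, hp]
    push_cast
    ring
  have hk0 : (1 : ℝ) ≤ k := by exact_mod_cast hk1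
  -- no balanced pair
  have hninj : pr Q M (fun f => ¬ Function.Injective f) ≤ ε / 2 := by
    refine hStd.ninj.trans ?_
    have h1 : (1 : ℝ) / ((Fintype.card Q : ℝ) + 1) ^ 4 ≤ 1 / (1 / δ) := by
      refine one_div_le_one_div_of_le (by positivity) ?_
      have h2 : (k : ℝ) ≤ (Fintype.card Q : ℝ) + 1 := by rw [hn]; linarith
      have h3 : (Fintype.card Q : ℝ) + 1 ≤ ((Fintype.card Q : ℝ) + 1) ^ 4 :=
        le_self_pow₀ (by linarith) (by norm_num)
      linarith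
    rw [one_div_one_div] at h1
    linarith
  have heN : (0 : ℝ) < eN P := by exact_mod_cast eN_pos P
  have hU : Unb Q M (ε / 2) := by
    intro x y hxy
    by_cases hx : x ∈ Set.range ι
    · by_cases hy : y ∈ Set.range ι
      · obtain ⟨u, rfl⟩ := hx
        obtain ⟨v, rfl⟩ := hy
        have huv : u ≠ v := fun h => hxy (by rw [h])
        by_cases h : (1 / 2 - ε) * (eN P : ℝ) ≤ eP P u v
        · right
          have h1 := hcon u v huv h
          have h2 := pr_lt_le hne (ι v) (ι u)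
          rw [hprob v u] at h2
          have h3 : (eP P v u : ℝ) / eN P ≤ 1 / 2 - ε := by
            rw [div_le_iff₀ heN]
            exact h1.le
          linarith
        · left
          rw [not_le] at h
          have h2 := pr_lt_le hne (ι u) (ι v)
          rw [hprob u v] at h2
          have h3 : (eP P u v : ℝ) / eN P ≤ 1 / 2 - ε := by
            rw [div_le_iff₀ heN]
            exact h.le
          linarith
      · rcases hcomp y hy x with h | h
        · left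
          rw [pr_zero_of_le h]
          linarith
        · right
          rw [pr_zero_of_le h]
          linarith
    · rcases hcomp x hx y with h | h
      · right
        rw [pr_zero_of_le h]
        linarith
      · left
        rw [pr_zero_of_le h]
        linarith
  -- incomparable elements
  have hinc : ∀ z : Q, (inc z : ℝ) ≤ p := by
    intro z
    have h1 : inc z ≤ Fintype.card P := by
      unfold inc
      refine (Finset.card_le_card (t := univ.image ι) ?_).trans Finset.card_image_le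
      intro q hq
      obtain ⟨_, hq1, hq2⟩ := Finset.mem_filter.mp hq
      by_contra hcon2
      have h2 : q ∉ Set.range ι := by
        rintro ⟨u, rfl⟩
        exact hcon2 (Finset.mem_image_of_mem _ (Finset.mem_univ _))
      rcases hcomp q h2 z with h | h
      · exact hq1 h
      · exact hq2 h
    rw [hp]
    exact_mod_cast h1
  have hinc0 : ∀ z : Q, z ∉ Set.range ι → inc z = 0 := by
    intro z hz
    unfold inc
    rw [Finset.card_eq_zero, Finset.filter_eq_empty_iff]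
    rintro q _ ⟨hq1, hq2⟩
    rcases hcomp z hz q with h | h
    · exact hq2 h
    · exact hq1 h
  -- bottom and top
  have hQne : Nonempty Q := ⟨ι a₁⟩
  obtain ⟨b₀, hb₀⟩ : ∃ b₀ : Q, ∀ q, b₀ ≤ q := by
    obtain ⟨b₀, -, hb₀⟩ := (wellFounded_lt (α := Q)).has_min Set.univ ⟨ι a₁, trivial⟩
    have h1 : b₀ ∉ Set.range ι := by
      rintro ⟨u, rfl⟩
      have h2 := (hlow u).1
      have h3 : 0 < (univ.filter fun q : Q => q < ι u).card := by omega
      obtain ⟨q, hq⟩ := Finset.card_pos.mp h3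
      exact hb₀ q trivial (Finset.mem_filter.mp hq).2
    refine ⟨b₀, fun q => ?_⟩
    rcases hcomp b₀ h1 q with h | h
    · exact h
    · rcases h.lt_or_eq with h | h
      · exact absurd h (hb₀ q trivial)
      · exact h.ge
  obtain ⟨t₀, ht₀⟩ : ∃ t₀ : Q, ∀ q, q ≤ t₀ := by
    obtain ⟨t₀, -, ht₀⟩ := (wellFounded_gt (α := Q)).has_min Set.univ ⟨ι a₁, trivial⟩
    have h1 : t₀ ∉ Set.range ι := by
      rintro ⟨u, rfl⟩
      have h2 := (hlow u).2
      have h3 : 0 < (univ.filter fun q : Q => ι u < q).card := by omega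
      obtain ⟨q, hq⟩ := Finset.card_pos.mp h3
      exact ht₀ q trivial (Finset.mem_filter.mp hq).2
    refine ⟨t₀, fun q => ?_⟩
    rcases hcomp t₀ h1 q with h | h
    · rcases h.lt_or_eq with h | h
      · exact absurd h (ht₀ q trivial)
      · exact h.ge
    · exact h
  -- the range condition
  have hrange : ∀ z : Q, (k : ℝ) - (Λ + Λ₂) ≤ lw z → (lw z : ℝ) ≤ p + k - 1 + (Λ + Λ₂) →
      Rng Q M z B β' := by
    intro z h1 h2
    refine rng_key hStd hb₀ ht₀ (hinc z) hT0 ?_ ?_ ?_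
    · rw [hT]; linarith
    · rw [hT, hn]; linarith
    · have h3 : √((Fintype.card Q : ℝ) + p + 1) ≤ √(2 * p + 2 + 2 * k) :=
        Real.sqrt_le_sqrt (by rw [hn]; linarith)
      have h4 : δ * T ≤ β' / 2 * T := mul_le_mul_of_nonneg_right hδ1 hT0.le
      linarith
  have hlwι : ∀ u : P, (k : ℝ) ≤ lw (ι u) ∧ (lw (ι u) : ℝ) ≤ p + k - 1 := by
    intro u
    constructor
    · have h1 : k ≤ lw (ι u) := (hlow u).1
      exact_mod_cast h1
    · have h1 := lw_up (ι u) (hlow u).2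
      have h2 : (lw (ι u) : ℝ) + k + 1 ≤ Fintype.card Q := by exact_mod_cast h1
      rw [hn] at h2
      linarith
  have hΛ₂0 : 0 ≤ Λ₂ := by rw [hΛ₂]; linarith
  -- the critical pair
  obtain ⟨a, b, R₁, hR₁0, hH1, hab, htau⟩ := exists_crit (α := Q) M hc0
  obtain ⟨x, hxA, hxfar⟩ := hfree
  obtain ⟨x', hx', rfl⟩ := Finset.mem_image.mp hxA
  have hR₁ : κ * m < R₁ := by
    by_contra h
    rw [not_lt] at h
    refine hLAR Q M hStd m hm1 (ι x') ?_ ?_ (H1_mono hH1 h)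
    · intro y hy
      have h1 := hxfar y hy
      rw [hAc, ← hm] at h1
      exact h1
    · obtain ⟨h1, h2⟩ := hlwι x'
      exact Rng_mono (by rw [hB]; linarith) hβ'2 (hrange _ (by linarith) (by linarith))
  have hc1 : c ≤ 1 := by linarith
  obtain ⟨hD, hR₁Λ⟩ := crit_key hStd a b hc0 hc1 (hinc a) (hinc b) hab htau.ge
  rw [← hΛ] at hD hR₁Λ
  have hD' := abs_le.mp hD
  have hor : a ∈ Set.range ι ∨ b ∈ Set.range ι := by
    by_contra h
    rw [not_or] at h
    obtain ⟨_, h2⟩ := crit_key (I := 0) hStd a b hc0 hc1 (by rw [hinc0 a h.1]; simp)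
      (by rw [hinc0 b h.2]; simp) hab htau.ge
    have h3 : 100 * ((0 : ℝ) + 1) / c ^ 2 = 100 / c ^ 2 := by norm_num
    rw [h3] at h2
    have h4 := abs_nonneg R₀
    linarith
  have hlwa : (k : ℝ) - Λ ≤ lw a ∧ (lw a : ℝ) ≤ p + k - 1 + Λ := by
    rcases hor with ⟨u, rfl⟩ | ⟨u, rfl⟩
    · obtain ⟨h1, h2⟩ := hlwι u
      constructor <;> linarith
    · obtain ⟨h1, h2⟩ := hlwι u
      constructor <;> linarith [hD'.1, hD'.2]
  have hR₀R₁ : R₀ ≤ R₁ := by
    have := le_abs_self R₀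
    linarith
  refine hFIN Q M hStd hU R₁ hR₀R₁ hH1 a b hab htau.ge fun z hz => ?_
  have h1 := hh_key hStd a z (hinc a) (hinc z)
  have h2 : L₀ * R₁ ≤ L₀ * Λ := mul_le_mul_of_nonneg_left hR₁Λ (by linarith)
  have h3 : |(lw z : ℝ) - lw a| ≤ Λ₂ := by rw [hΛ₂]; linarith
  have h4 := abs_le.mp h3
  exact Rng_mono (by rw [hB]; linarith) hβ'1
    (hrange z (by linarith [hlwa.1, h4.1]) (by linarith [hlwa.2, h4.2]))

end Pool.Agent.TH161.KS
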